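import Pool.Agent.SupraGreedy.Greedy

set_option autoImplicit false
set_option linter.unusedSectionVars false

/-!
From the prediction hypothesis to an infinite binary tree, injective on every level.
-/

namespace Pool.Agent.SupraGreedy

open Finset
open scoped Pointwise

variable {G : Type*} [Group G] [DecidableEq G]

lemma pos_append {Λ : Type*} {K : Finset G} {pos : List Λ → G}
    (hK : ∀ l a, ∃ k ∈ K, pos (a :: l) = pos l * k) (u l : List Λ) :
    ∃ k ∈ K ^ u.length, pos (u ++ l) = pos l * k := by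
  induction u with
  | nil => exact ⟨1, by simp, by simp⟩
  | cons a u ih =>
    obtain ⟨k, hk, hk'⟩ := ih
    obtain ⟨k', hk1, hk2⟩ := hK (u ++ l) a
    refine ⟨k * k', ?_, ?_⟩
    · rw [List.length_cons, pow_succ]
      exact Finset.mul_mem_mul hk hk1
    · rw [List.cons_append, hk2, hk', mul_assoc]

/-- finite trees of every depth -/
theorem finite_trees (K : Finset G) (C ρ : ℝ) (hC : 0 ≤ C) (hρ : 0 ≤ ρ) (hρ1 : ρ < 1)
    (h : ∀ n : ℕ, ∃ (Λ : Type) (_ : Fintype Λ) (_ : Nonempty Λ) (pos : List Λ → G),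
      (∀ l a, ∃ k ∈ K, pos (a :: l) = pos l * k) ∧
      (∀ (l : List Λ) (k : ℕ), l.length + k ≤ n → ∀ z, avg k (ind pos z) l ≤ C * ρ ^ k)) :
    ∃ K' : Finset G, ∀ m : ℕ, ∃ f : List Bool → G,
      (∀ w b, w.length < m → ∃ k ∈ K', f (w ++ [b]) = f w * k) ∧
      ∀ w w', w.length ≤ m → w'.length = w.length → f w = f w' → w = w' := by
  obtain ⟨a, ha⟩ : ∃ a : ℕ, ρ ^ a < 1 / (4 * (C + 1)) :=
    exists_pow_lt_of_lt_one (by positivity) hρ1
  set q : ℝ := 4 * ρ ^ a with hq
  have hq0 : 0 ≤ q := by positivity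
  have hCq : (C + 1) * q ≤ 1 := by
    have h1 : (0 : ℝ) < 4 * (C + 1) := by positivity
    rw [lt_div_iff₀ h1] at ha
    rw [hq]
    nlinarith
  refine ⟨K ^ a, fun m => ?_⟩
  obtain ⟨Λ, _, _, pos, hpos, hpred⟩ := h (a * m)
  have hsum : ∀ j : ℕ, ∑ r ∈ range j, 2 ^ (r + 1) * (2 ^ r * (C * ρ ^ (a * (r + 1)))) ≤ 1 / 2 := by
    intro j
    have h2 : ∑ r ∈ range j, 2 ^ (r + 1) * (2 ^ r * (C * ρ ^ (a * (r + 1)))) ≤ (1 - q ^ j) / 2 := by
      induction j with
      | zero => simp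
      | succ j ih =>
        rw [sum_range_succ]
        have h3 : (2 : ℝ) ^ (j + 1) * (2 ^ j * (C * ρ ^ (a * (j + 1)))) = C * q * q ^ j / 2 := by
          have h4 : (4 : ℝ) ^ j = 2 ^ j * 2 ^ j := by
            rw [← mul_pow]; norm_num
          rw [hq, mul_pow, h4, pow_mul, pow_succ, pow_succ (ρ ^ a)]
          ring
        rw [h3]
        have h5 : 0 ≤ q ^ j := pow_nonneg hq0 j
        have h6 : C * q ≤ 1 - q := by linarith
        have h7 : C * q * q ^ j ≤ (1 - q) * q ^ j := mul_le_mul_of_nonneg_right h6 h5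
        rw [pow_succ]
        linarith
    have h8 : 0 ≤ q ^ j := pow_nonneg hq0 j
    linarith
  obtain ⟨t, _, hts, _, hti⟩ := greedy_tree pos a (a * m) (fun r => C * ρ ^ (a * r))
    (fun l r hl z => hpred l (a * r) hl z) (fun r => by positivity) hsum m [] (fun _ => ∅)
    (by simp) (by simp [danger])
  refine ⟨fun w => pos (t w), ?_, hti⟩
  intro w b hw
  obtain ⟨u, hu, hu'⟩ := hts w b hw
  obtain ⟨k, hk, hk'⟩ := pos_append hpos u (t w)
  rw [hu] at hk
  refine ⟨k, hk, ?_⟩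
  change pos (t (w ++ [b])) = pos (t w) * k
  rw [hu', hk']

/-- compactness -/
theorem infinite_tree (K' : Finset G)
    (h : ∀ m : ℕ, ∃ f : List Bool → G,
      (∀ w b, w.length < m → ∃ k ∈ K', f (w ++ [b]) = f w * k) ∧
      ∀ w w', w.length ≤ m → w'.length = w.length → f w = f w' → w = w') :
    ∃ f : List Bool → G, (∀ w b, ∃ k ∈ K', f (w ++ [b]) = f w * k) ∧
      ∀ w w', w'.length = w.length → f w = f w' → w = w' := by
  choose f hf1 hf2 using h
  set g : ℕ → List Bool → G := fun m w => (f m [])⁻¹ * f m w with hg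
  have hg1 : ∀ m w b, w.length < m → ∃ k ∈ K', g m (w ++ [b]) = g m w * k := by
    intro m w b hw
    obtain ⟨k, hk, hk'⟩ := hf1 m w b hw
    exact ⟨k, hk, by rw [hg]; simp only [hk', mul_assoc]⟩
  have hg2 : ∀ m w w', w.length ≤ m → w'.length = w.length → g m w = g m w' → w = w' := by
    intro m w w' h1 h2 h3
    exact hf2 m w w' h1 h2 (mul_left_cancel h3)
  have hmem : ∀ (w : List Bool) (m : ℕ), w.length ≤ m → g m w ∈ K' ^ w.length := by
    intro w
    induction w using List.reverseRecOn with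
    | nil =>
      intro m _
      simp [hg]
    | append_singleton w b ih =>
      intro m hm
      rw [List.length_append, List.length_singleton] at hm
      obtain ⟨k, hk, hk'⟩ := hg1 m w b (by omega)
      rw [hk', List.length_append, List.length_singleton, pow_succ]
      exact Finset.mul_mem_mul (ih m (by omega)) hk
  have hlim : ∀ w : List Bool, ∃ z : G, ∀ᶠ m in (Filter.hyperfilter ℕ : Filter ℕ), g m w = z := by
    intro w
    have h1 : ∀ᶠ m in (Filter.hyperfilter ℕ : Filter ℕ), ∃ z ∈ (K' ^ w.length : Finset G), g m w = z := by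
      have h2 : ∀ᶠ m in (Filter.atTop : Filter ℕ), w.length ≤ m := Filter.eventually_ge_atTop _
      rw [← Nat.cofinite_eq_atTop] at h2
      filter_upwards [Filter.hyperfilter_le_cofinite h2] with m hm
      exact ⟨_, hmem w m hm, rfl⟩
    have h3 := (Ultrafilter.eventually_exists_mem_iff (f := Filter.hyperfilter ℕ)
      (is := ((K' ^ w.length : Finset G) : Set G)) (P := fun z m => g m w = z)
      (Finset.finite_toSet _)).1 h1
    obtain ⟨z, _, hz⟩ := h3
    exact ⟨z, hz⟩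
  choose F hF using hlim
  have hlarge : ∀ n : ℕ, ∀ᶠ m in (Filter.hyperfilter ℕ : Filter ℕ), n ≤ m := by
    intro n
    have h2 : ∀ᶠ m in (Filter.atTop : Filter ℕ), n ≤ m := Filter.eventually_ge_atTop _
    rw [← Nat.cofinite_eq_atTop] at h2
    exact Filter.hyperfilter_le_cofinite h2
  refine ⟨F, ?_, ?_⟩
  · intro w b
    obtain ⟨m, hm1, hm2, hm3⟩ := ((hF w).and ((hF (w ++ [b])).and (hlarge (w.length + 1)))).exists
    obtain ⟨k, hk, hk'⟩ := hg1 m w b (by omega)
    exact ⟨k, hk, by rw [← hm2, ← hm1, hk']⟩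
  · intro w w' hww heq
    obtain ⟨m, hm1, hm2, hm3⟩ := ((hF w).and ((hF w').and (hlarge w.length))).exists
    exact hg2 m w w' hm3 hww (by rw [hm1, hm2, heq])

/-- prediction hypothesis at all horizons gives an infinite tree -/
theorem exists_tree (K : Finset G) (C ρ : ℝ) (hC : 0 ≤ C) (hρ : 0 ≤ ρ) (hρ1 : ρ < 1)
    (h : ∀ n : ℕ, ∃ (Λ : Type) (_ : Fintype Λ) (_ : Nonempty Λ) (pos : List Λ → G),
      (∀ l a, ∃ k ∈ K, pos (a :: l) = pos l * k) ∧
      (∀ (l : List Λ) (k : ℕ), l.length + k ≤ n → ∀ z, avg k (ind pos z) l ≤ C * ρ ^ k)) :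
    ∃ (K' : Finset G) (f : List Bool → G), (∀ w b, ∃ k ∈ K', f (w ++ [b]) = f w * k) ∧
      ∀ w w', w'.length = w.length → f w = f w' → w = w' := by
  obtain ⟨K', hK'⟩ := finite_trees K C ρ hC hρ hρ1 h
  exact ⟨K', infinite_tree K' hK'⟩

end Pool.Agent.SupraGreedy
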