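import Mathlib

set_option autoImplicit false
set_option linter.unusedSectionVars false

/-!
Greedy construction of binary trees of histories with distinct positions from a prediction hypothesis.
-/

namespace Pool.Agent.SupraGreedy

open Finset

section avg

variable {Λ : Type*} [Fintype Λ]

/-- the mean of `F` over all ways to put `k` more letters (uniform, independent) in front of the history `l` -/
noncomputable def avg : ℕ → (List Λ → ℝ) → List Λ → ℝ
  | 0, F, l => F l
  | k + 1, F, l => (∑ a : Λ, avg k F (a :: l)) / (Fintype.card Λ : ℝ)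

@[simp] lemma avg_zero (F : List Λ → ℝ) (l : List Λ) : avg 0 F l = F l := rfl

lemma avg_succ (k : ℕ) (F : List Λ → ℝ) (l : List Λ) :
    avg (k + 1) F l = (∑ a : Λ, avg k F (a :: l)) / (Fintype.card Λ : ℝ) := rfl

lemma avg_add (j k : ℕ) (F : List Λ → ℝ) (l : List Λ) :
    avg (j + k) F l = avg j (avg k F) l := by
  induction j generalizing l with
  | zero => rw [Nat.zero_add]; rfl
  | succ j ih =>
    rw [Nat.succ_add_eq_add_succ, Nat.add_succ, avg_succ, avg_succ]
    simp only [ih]

lemma avg_mono (k : ℕ) {F F' : List Λ → ℝ} (h : ∀ l, F l ≤ F' l) (l : List Λ) :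
    avg k F l ≤ avg k F' l := by
  induction k generalizing l with
  | zero => exact h l
  | succ k ih =>
    rw [avg_succ, avg_succ]
    exact div_le_div_of_nonneg_right (sum_le_sum fun a _ => ih _) (Nat.cast_nonneg _)

lemma avg_sum {ι : Type*} (s : Finset ι) (k : ℕ) (F : ι → List Λ → ℝ) (l : List Λ) :
    avg k (fun h => ∑ i ∈ s, F i h) l = ∑ i ∈ s, avg k (F i) l := by
  induction k generalizing l with
  | zero => rfl
  | succ k ih =>
    simp only [avg_succ, ih]
    rw [Finset.sum_comm, Finset.sum_div]

lemma avg_const_mul (c : ℝ) (k : ℕ) (F : List Λ → ℝ) (l : List Λ) :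
    avg k (fun h => c * F h) l = c * avg k F l := by
  induction k generalizing l with
  | zero => rfl
  | succ k ih =>
    simp only [avg_succ, ih]
    rw [← Finset.mul_sum, mul_div_assoc]

lemma avg_add_fun (k : ℕ) (F F' : List Λ → ℝ) (l : List Λ) :
    avg k (fun h => F h + F' h) l = avg k F l + avg k F' l := by
  induction k generalizing l with
  | zero => rfl
  | succ k ih =>
    simp only [avg_succ, ih]
    rw [Finset.sum_add_distrib, add_div]

lemma avg_nonneg (k : ℕ) {F : List Λ → ℝ} (h : ∀ l, 0 ≤ F l) (l : List Λ) :
    0 ≤ avg k F l := by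
  induction k generalizing l with
  | zero => exact h l
  | succ k ih =>
    rw [avg_succ]
    exact div_nonneg (sum_nonneg fun a _ => ih _) (Nat.cast_nonneg _)

/-- some continuation is at most the mean -/
lemma exists_le_avg [Nonempty Λ] (k : ℕ) (F : List Λ → ℝ) (l : List Λ) :
    ∃ b : List Λ, b.length = k ∧ F (b ++ l) ≤ avg k F l := by
  induction k generalizing l with
  | zero => exact ⟨[], rfl, le_rfl⟩
  | succ k ih =>
    have hcard : (0 : ℝ) < Fintype.card Λ := by exact_mod_cast Fintype.card_pos
    have h1 : ∃ a : Λ, avg k F (a :: l) ≤ avg (k + 1) F l := by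
      by_contra hcon
      push Not at hcon
      have h2 : ∑ _a : Λ, avg (k + 1) F l < ∑ a : Λ, avg k F (a :: l) :=
        sum_lt_sum_of_nonempty univ_nonempty fun a _ => hcon a
      rw [sum_const, card_univ, nsmul_eq_mul] at h2
      rw [avg_succ, mul_div_cancel₀ _ hcard.ne'] at h2
      exact lt_irrefl _ h2
    obtain ⟨a, ha⟩ := h1
    obtain ⟨b, hb, hle⟩ := ih (a :: l)
    refine ⟨b ++ [a], by simp [hb], ?_⟩
    rw [List.append_assoc]
    exact hle.trans ha

end avg

section greedy

variable {Λ : Type} [Fintype Λ] [Nonempty Λ] {G : Type*} [DecidableEq G]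

/-- indicator of a position -/
noncomputable def ind (pos : List Λ → G) (z : G) : List Λ → ℝ := fun h => if pos h = z then 1 else 0

lemma ind_nonneg (pos : List Λ → G) (z : G) (l : List Λ) : 0 ≤ ind pos z l := by
  unfold ind; split_ifs <;> norm_num

/-- the danger functional -/
noncomputable def danger (pos : List Λ → G) (a m : ℕ) (Env : ℕ → Finset G) (l : List Λ) : ℝ :=
  ∑ r ∈ range m, 2 ^ (r + 1) * ∑ z ∈ Env (r + 1), avg (a * (r + 1)) (ind pos z) l

lemma danger_nonneg (pos : List Λ → G) (a m : ℕ) (Env : ℕ → Finset G) (l : List Λ) :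
    0 ≤ danger pos a m Env l :=
  sum_nonneg fun r _ => mul_nonneg (by positivity)
    (sum_nonneg fun z _ => avg_nonneg _ (ind_nonneg pos z) l)

/-- the expected danger one macro step later -/
lemma avg_danger (pos : List Λ → G) (a m : ℕ) (Env : ℕ → Finset G) (l : List Λ) :
    avg a (fun h => (if pos h ∈ Env 1 then (1 : ℝ) else 0) + danger pos a m (fun r => Env (r + 1)) h) l
      = danger pos a (m + 1) Env l / 2 := by
  rw [avg_add_fun]
  have h1 : avg a (fun h => if pos h ∈ Env 1 then (1 : ℝ) else 0) l
      = ∑ z ∈ Env 1, avg a (ind pos z) l := by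
    rw [← avg_sum]
    congr 1
    funext h
    unfold ind
    rw [Finset.sum_ite_eq (Env 1) (pos h) (fun _ => (1 : ℝ))]
  have h2 : avg a (danger pos a m (fun r => Env (r + 1))) l
      = ∑ r ∈ range m, 2 ^ (r + 1) * ∑ z ∈ Env (r + 2), avg (a * (r + 2)) (ind pos z) l := by
    unfold danger
    rw [avg_sum]
    refine sum_congr rfl fun r _ => ?_
    rw [avg_const_mul, avg_sum]
    congr 1
    refine sum_congr rfl fun z _ => ?_
    rw [show a * (r + 2) = a + a * (r + 1) by ring, avg_add]
  rw [h1]
  change _ + avg a (danger pos a m (fun r => Env (r + 1))) l = _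
  rw [h2]
  unfold danger
  rw [sum_range_succ']
  simp only [zero_add, pow_one, mul_one]
  rw [add_div, add_comm]
  congr 1
  · rw [Finset.sum_div]
    refine sum_congr rfl fun r _ => ?_
    rw [show r + 1 + 1 = r + 2 by ring, pow_succ (2 : ℝ) (r + 1)]
    ring
  · ring

/-- good choice of a macro letter -/
lemma exists_step (pos : List Λ → G) (a m : ℕ) (Env : ℕ → Finset G) (l : List Λ)
    (h : danger pos a (m + 1) Env l ≤ 1) :
    ∃ b : List Λ, b.length = a ∧ pos (b ++ l) ∉ Env 1 ∧
      danger pos a m (fun r => Env (r + 1)) (b ++ l) ≤ danger pos a (m + 1) Env l / 2 := by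
  obtain ⟨b, hb, hle⟩ := exists_le_avg a
    (fun h => (if pos h ∈ Env 1 then (1 : ℝ) else 0) + danger pos a m (fun r => Env (r + 1)) h) l
  rw [avg_danger] at hle
  have h0 := danger_nonneg pos a m (fun r => Env (r + 1)) (b ++ l)
  refine ⟨b, hb, ?_, ?_⟩
  · intro hmem
    rw [if_pos hmem] at hle
    linarith
  · by_cases hmem : pos (b ++ l) ∈ Env 1
    · rw [if_pos hmem] at hle
      linarith
    · rw [if_neg hmem] at hle
      linarith

/-- all binary words of length `r` -/
def words : ℕ → Finset (List Bool)
  | 0 => {[]}
  | r + 1 => (words r).image (fun w => true :: w) ∪ (words r).image (fun w => false :: w)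

lemma mem_words {r : ℕ} {w : List Bool} : w ∈ words r ↔ w.length = r := by
  induction r generalizing w with
  | zero => simp [words, List.length_eq_zero_iff]
  | succ r ih =>
    simp only [words, mem_union, mem_image, ih]
    constructor
    · rintro (⟨v, rfl, rfl⟩ | ⟨v, rfl, rfl⟩) <;> simp
    · intro hw
      match w, hw with
      | b :: v, hw =>
        cases b
        · exact Or.inr ⟨v, by simpa using hw, rfl⟩
        · exact Or.inl ⟨v, by simpa using hw, rfl⟩

lemma card_words_le (r : ℕ) : (words r).card ≤ 2 ^ r := by
  induction r with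
  | zero => simp [words]
  | succ r ih =>
    calc (words (r + 1)).card ≤ _ := card_union_le _ _
      _ ≤ (words r).card + (words r).card := Nat.add_le_add card_image_le card_image_le
      _ ≤ 2 ^ (r + 1) := by rw [pow_succ]; omega

/-- the positions of a tree on level `r` -/
noncomputable def lev (pos : List Λ → G) (t : List Bool → List Λ) (r : ℕ) : Finset G :=
  (words r).image (fun w => pos (t w))

lemma card_lev_le (pos : List Λ → G) (t : List Bool → List Λ) (r : ℕ) :
    (lev pos t r).card ≤ 2 ^ r := card_image_le.trans (card_words_le r)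

lemma mem_lev {pos : List Λ → G} {t : List Bool → List Λ} {r : ℕ} {w : List Bool}
    (hw : w.length = r) : pos (t w) ∈ lev pos t r :=
  mem_image_of_mem _ (mem_words.2 hw)

/-- The greedy tree. -/
theorem greedy_tree (pos : List Λ → G) (a n : ℕ) (θ : ℕ → ℝ)
    (hθ : ∀ (l : List Λ) (r : ℕ), l.length + a * r ≤ n → ∀ z, avg (a * r) (ind pos z) l ≤ θ r)
    (hθ0 : ∀ r, 0 ≤ θ r)
    (hsum : ∀ m : ℕ, ∑ r ∈ range m, 2 ^ (r + 1) * (2 ^ r * θ (r + 1)) ≤ 1 / 2)
    (m : ℕ) : ∀ (l : List Λ) (Env : ℕ → Finset G), l.length + a * m ≤ n →
      danger pos a m Env l ≤ 1 / 2 →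
      ∃ t : List Bool → List Λ, t [] = l ∧
        (∀ w b, w.length < m → ∃ u : List Λ, u.length = a ∧ t (w ++ [b]) = u ++ t w) ∧
        (∀ w, 1 ≤ w.length → w.length ≤ m → pos (t w) ∉ Env w.length) ∧
        (∀ w w', w.length ≤ m → w'.length = w.length → pos (t w) = pos (t w') → w = w') := by
  induction m with
  | zero =>
    intro l Env _ _
    refine ⟨fun _ => l, rfl, fun w b h => absurd h (Nat.not_lt_zero _), fun w h1 h2 => by omega, ?_⟩
    intro w w' h1 h2 _
    have h3 : w = [] := List.length_eq_zero_iff.1 (by omega)
    have h4 : w' = [] := List.length_eq_zero_iff.1 (by omega)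
    rw [h3, h4]
  | succ m ih =>
    intro l Env hl hd
    have hl' : l.length + a * m + a ≤ n := by
      have : a * (m + 1) = a * m + a := by ring
      omega
    -- first letter
    obtain ⟨b1, hb1, hn1, hd1⟩ := exists_step pos a m Env l (by linarith)
    obtain ⟨t1, ht10, ht1s, ht1e, ht1i⟩ := ih (b1 ++ l) (fun r => Env (r + 1))
      (by rw [List.length_append, hb1]; omega) (by linarith)
    -- enlarge the environment
    set Env2 : ℕ → Finset G := fun r => Env r ∪ lev pos t1 (r - 1) with hEnv2
    have hd2 : danger pos a (m + 1) Env2 l ≤ 1 := by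
      have : danger pos a (m + 1) Env2 l ≤ danger pos a (m + 1) Env l
          + ∑ r ∈ range (m + 1), 2 ^ (r + 1) * (2 ^ r * θ (r + 1)) := by
        unfold danger
        rw [← sum_add_distrib]
        refine sum_le_sum fun r hr => ?_
        rw [← mul_add]
        refine mul_le_mul_of_nonneg_left ?_ (by positivity)
        calc ∑ z ∈ Env2 (r + 1), avg (a * (r + 1)) (ind pos z) l
            ≤ ∑ z ∈ Env (r + 1), avg (a * (r + 1)) (ind pos z) l
              + ∑ z ∈ lev pos t1 r, avg (a * (r + 1)) (ind pos z) l := by
              rw [← sum_union_inter]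
              have h5 : Env2 (r + 1) = Env (r + 1) ∪ lev pos t1 r := by
                simp only [hEnv2, Nat.add_sub_cancel]
              rw [h5]
              exact le_add_of_nonneg_right
                (sum_nonneg fun z _ => avg_nonneg _ (ind_nonneg pos z) l)
          _ ≤ _ := by
              refine add_le_add le_rfl ?_
              calc ∑ z ∈ lev pos t1 r, avg (a * (r + 1)) (ind pos z) l
                  ≤ ∑ _z ∈ lev pos t1 r, θ (r + 1) := by
                    refine sum_le_sum fun z _ => hθ l (r + 1) ?_ z
                    have hr' : r + 1 ≤ m + 1 := by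
                      have := mem_range.1 hr
                      omega
                    exact (Nat.add_le_add_left (Nat.mul_le_mul_left a hr') _).trans hl
                _ = (lev pos t1 r).card * θ (r + 1) := by rw [sum_const, nsmul_eq_mul]
                _ ≤ 2 ^ r * θ (r + 1) := by
                    refine mul_le_mul_of_nonneg_right ?_ (hθ0 _)
                    exact_mod_cast card_lev_le pos t1 r
      linarith [hsum (m + 1)]
    obtain ⟨b2, hb2, hn2, hd2'⟩ := exists_step pos a m Env2 l hd2
    obtain ⟨t2, ht20, ht2s, ht2e, ht2i⟩ := ih (b2 ++ l) (fun r => Env2 (r + 1))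
      (by rw [List.length_append, hb2]; omega) (by linarith)
    -- the whole tree
    refine ⟨fun w => match w with
      | [] => l
      | false :: w => t1 w
      | true :: w => t2 w, rfl, ?_, ?_, ?_⟩
    · intro w b hw
      match w with
      | [] =>
        cases b
        · exact ⟨b1, hb1, ht10⟩
        · exact ⟨b2, hb2, ht20⟩
      | false :: w => exact ht1s w b (by simpa using hw)
      | true :: w => exact ht2s w b (by simpa using hw)
    · intro w hw1 hw2
      match w with
      | [] => exact absurd hw1 (by simp)
      | false :: w =>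
        have hw3 : w.length ≤ m := by simpa using hw2
        rcases Nat.eq_zero_or_pos w.length with h0 | hpos
        · have hw0 : w = [] := List.length_eq_zero_iff.1 h0
          subst hw0
          change pos (t1 []) ∉ Env 1
          rw [ht10]
          exact hn1
        · exact ht1e w hpos hw3
      | true :: w =>
        have hw3 : w.length ≤ m := by simpa using hw2
        rcases Nat.eq_zero_or_pos w.length with h0 | hpos
        · have hw0 : w = [] := List.length_eq_zero_iff.1 h0
          subst hw0
          change pos (t2 []) ∉ Env 1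
          rw [ht20]
          intro hmem
          exact hn2 (mem_union_left _ hmem)
        · intro hmem
          exact ht2e w hpos hw3 (mem_union_left _ hmem)
    · have cross : ∀ w w' : List Bool, w.length ≤ m → w'.length = w.length →
          pos (t1 w) = pos (t2 w') → False := by
        intro w w' hw hww heq
        have h6 : pos (t2 w') ∈ Env2 (w'.length + 1) := by
          rw [hEnv2]
          refine mem_union_right _ ?_
          rw [Nat.add_sub_cancel, ← heq]
          exact mem_lev hww.symm
        rcases Nat.eq_zero_or_pos w'.length with h0 | hpos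
        · have hw0 : w' = [] := List.length_eq_zero_iff.1 h0
          subst hw0
          rw [ht20] at h6
          exact hn2 h6
        · exact ht2e w' hpos (by omega) h6
      intro w w' hw hww heq
      match w, w', hw, hww, heq with
      | [], [], _, _, _ => rfl
      | [], b :: w', _, h, _ => exact absurd h (by simp)
      | b :: w, [], _, h, _ => exact absurd h (by simp)
      | false :: w, false :: w', h1, h2, heq =>
        rw [ht1i w w' (by simpa using h1) (by simpa using h2) heq]
      | true :: w, true :: w', h1, h2, heq =>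
        rw [ht2i w w' (by simpa using h1) (by simpa using h2) heq]
      | false :: w, true :: w', h1, h2, heq =>
        exact (cross w w' (by simpa using h1) (by simpa using h2) heq).elim
      | true :: w, false :: w', h1, h2, heq =>
        have h1' : w.length ≤ m := by simpa using h1
        have h2' : w'.length = w.length := by simpa using h2
        exact (cross w' w (by omega) h2'.symm heq.symm).elim

end greedy

end Pool.Agent.SupraGreedy
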