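import Pool.Agent.SupraGreedy.Compact
import Pool.Agent.SPG.Factor

set_option autoImplicit false
set_option linter.unusedSectionVars false

/-!
An infinite binary tree with bounded steps which is injective on every level shows that the group is not
supramenable (through the product with the integers).
-/

namespace Pool.Agent.SupraGreedy

open Finset
open scoped Pointwise
open Pool.Agent.SPG (Supramenable LocallySubexponential)

/-- the integers have subexponential growth -/
theorem locallySubexponential_int : LocallySubexponential (Multiplicative ℤ) := by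
  classical
  intro S c hc
  obtain ⟨M, hM⟩ : ∃ M : ℕ, ∀ s ∈ S, (Multiplicative.toAdd s).natAbs ≤ M :=
    ⟨S.sup (fun s => (Multiplicative.toAdd s).natAbs), fun s hs =>
      Finset.le_sup (f := fun s : Multiplicative ℤ => (Multiplicative.toAdd s).natAbs) hs⟩
  have hpow : ∀ n : ℕ, ∀ x ∈ S ^ n, (Multiplicative.toAdd x).natAbs ≤ n * M := by
    intro n
    induction n with
    | zero =>
      intro x hx
      rw [pow_zero, Finset.mem_one] at hx
      subst hx
      simp
    | succ n ih =>
      intro x hx
      rw [pow_succ, Finset.mem_mul] at hx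
      obtain ⟨y, hy, z, hz, rfl⟩ := hx
      have h1 := ih y hy
      have h2 := hM z hz
      have h3 : (Multiplicative.toAdd (y * z)).natAbs
          ≤ (Multiplicative.toAdd y).natAbs + (Multiplicative.toAdd z).natAbs := by
        rw [toAdd_mul]
        exact Int.natAbs_add_le _ _
      calc _ ≤ _ := h3
        _ ≤ n * M + M := Nat.add_le_add h1 h2
        _ = (n + 1) * M := by ring
  have hcard : ∀ n : ℕ, ((S ^ n).card : ℝ) ≤ 2 * M * n + 1 := by
    intro n
    have h1 : (S ^ n).card ≤ (Finset.Icc (-(n * M : ℕ) : ℤ) ((n * M : ℕ) : ℤ)).card := by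
      refine card_le_card_of_injOn (fun x => Multiplicative.toAdd x) ?_ ?_
      · intro x hx
        have h2 := hpow n x hx
        simp only [coe_Icc, Set.mem_Icc]
        omega
      · intro x _ y _ hxy
        exact Multiplicative.toAdd.injective hxy
    rw [Int.card_Icc] at h1
    have h3 : (((n * M : ℕ) : ℤ) + 1 - -((n * M : ℕ) : ℤ)).toNat = 2 * (n * M) + 1 := by omega
    rw [h3] at h1
    calc ((S ^ n).card : ℝ) ≤ ((2 * (n * M) + 1 : ℕ) : ℝ) := by exact_mod_cast h1
      _ = 2 * M * n + 1 := by push_cast; ring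
  have hlim : Filter.Tendsto (fun n : ℕ => (2 * (M : ℝ) * n + 1) / c ^ n) Filter.atTop (nhds 0) := by
    have h1 := tendsto_pow_const_div_const_pow_of_one_lt 1 hc
    have h0 := tendsto_pow_const_div_const_pow_of_one_lt 0 hc
    have h2 := (h1.const_mul (2 * (M : ℝ))).add h0
    rw [mul_zero, add_zero] at h2
    refine h2.congr fun n => ?_
    simp only [pow_one, pow_zero]
    ring
  have hev := hlim.eventually (gt_mem_nhds (zero_lt_one : (0 : ℝ) < 1))
  filter_upwards [hev] with n hn
  have hcn : (0 : ℝ) < c ^ n := pow_pos (by linarith) n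
  rw [div_lt_one hcn] at hn
  have h4 : ((S ^ n).card : ℝ) ≤ c ^ n := (hcard n).trans hn.le
  convert h4
  all_goals rfl

variable {G : Type*} [Group G]

/-- a level-injective binary tree with bounded steps: the group is not supramenable -/
theorem not_supramenable_of_tree (K : Finset G) (f : List Bool → G)
    (hf : ∀ w b, ∃ k ∈ K, f (w ++ [b]) = f w * k)
    (hinj : ∀ w w', w'.length = w.length → f w = f w' → w = w') :
    ¬ Supramenable G := by
  classical
  intro hG
  have hprod : Supramenable (G × Multiplicative ℤ) :=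
    Pool.Agent.SPG.factor hG locallySubexponential_int
  refine Pool.Agent.SPG.no_tree hprod
    (fun w => ((f w.reverse)⁻¹, Multiplicative.ofAdd (w.length : ℤ))) ?_
    (K.image (fun k => (k⁻¹, Multiplicative.ofAdd (1 : ℤ)))) ?_
  · intro w w' h
    have h1 : (f w.reverse)⁻¹ = (f w'.reverse)⁻¹ := congrArg Prod.fst h
    have h2 : (w.length : ℤ) = (w'.length : ℤ) :=
      Multiplicative.ofAdd.injective (congrArg Prod.snd h)
    have h3 : w.reverse = w'.reverse := hinj _ _ (by simp; omega) (inv_injective h1)
    exact List.reverse_injective h3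
  · intro b v
    obtain ⟨k, hk, hk'⟩ := hf v.reverse b
    refine ⟨(k⁻¹, Multiplicative.ofAdd (1 : ℤ)), mem_image_of_mem _ hk, ?_⟩
    refine Prod.ext ?_ ?_
    · change k⁻¹ * (f v.reverse)⁻¹ = (f (b :: v).reverse)⁻¹
      rw [List.reverse_cons, hk', mul_inv_rev]
    · change Multiplicative.ofAdd (1 : ℤ) * Multiplicative.ofAdd (v.length : ℤ)
        = Multiplicative.ofAdd (((b :: v).length : ℕ) : ℤ)
      rw [← ofAdd_add, List.length_cons]
      congr 1
      push_cast
      ring

/-- the prediction hypothesis shows that the group is not supramenable -/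
theorem not_supramenable_of_pred [DecidableEq G] (K : Finset G) (C ρ : ℝ) (hC : 0 ≤ C) (hρ : 0 ≤ ρ)
    (hρ1 : ρ < 1)
    (h : ∀ n : ℕ, ∃ (Λ : Type) (_ : Fintype Λ) (_ : Nonempty Λ) (pos : List Λ → G),
      (∀ l a, ∃ k ∈ K, pos (a :: l) = pos l * k) ∧
      (∀ (l : List Λ) (k : ℕ), l.length + k ≤ n → ∀ z, avg k (ind pos z) l ≤ C * ρ ^ k)) :
    ¬ Supramenable G := by
  obtain ⟨K', f, hf1, hf2⟩ := exists_tree K C ρ hC hρ hρ1 h
  exact not_supramenable_of_tree K' f hf1 hf2

end Pool.Agent.SupraGreedy
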